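import Pool.Agent.H596E.Split

set_option autoImplicit false
set_option linter.all false

/-!
# Splitting p-groups of automorphisms: `t^p ∈ [T, P, ..., P]` (`2p-1` factors)
-/

open scoped commutatorElement

namespace Pool.Agent.H596E

open Pool.Agent.H596Q

theorem prod_mod {K : Type} [Group K] (N : Subgroup K) (hN : N.Normal) (w : K) (e : ℕ → ℕ)
    (x : ℕ → K) (h : ∀ l, ∃ r ∈ N, x l = r * w ^ e l) (n : ℕ) :
    ∃ r ∈ N, ((List.range n).map x).prod = r * w ^ (∑ l ∈ Finset.range n, e l) := by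
  induction n with
  | zero => exact ⟨1, N.one_mem, by simp⟩
  | succ n ih =>
    obtain ⟨r1, hr1, h1⟩ := ih
    obtain ⟨r2, hr2, h2⟩ := h n
    rw [List.range_succ, List.map_append, List.prod_append, h1, Finset.sum_range_succ]
    simp only [List.map_cons, List.map_nil, List.prod_cons, List.prod_nil, mul_one]
    rw [h2]
    set s := ∑ l ∈ Finset.range n, e l
    refine ⟨r1 * (w ^ s * r2 * (w ^ s)⁻¹), N.mul_mem hr1 (hN.conj_mem _ hr2 _), ?_⟩
    rw [pow_add]
    group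

section

variable {P : Type} [Group P] {p : ℕ} {T : Subgroup P} {φ ψ : P}

theorem ff_Pol (hT : T.Normal) {c : ℕ} (hc : E T c = ⊥) (H : Hyp p T φ ψ) {t : P} (ht : t ∈ T) :
    (∀ g ∈ (List.range p).map (FF φ ψ t), g ∈ Pol (ℤ × ℤ) (EFilt T hT c hc) 1) ∧
      ff p φ ψ t ∈ Pol (ℤ × ℤ) (EFilt T hT c hc) 1 := by
  have h1 : ∀ g ∈ (List.range p).map (FF φ ψ t), g ∈ Pol (ℤ × ℤ) (EFilt T hT c hc) 1 := by
    intro g hg
    rw [List.mem_map] at hg
    obtain ⟨l, -, rfl⟩ := hg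
    refine eqv_Pol hT hc (fun h => aa φ ψ h ^ l) (le_refl 1) ?_ ?_
    · intro x
      exact hT.conj_mem _ ht _
    · intro h x
      exact FF_eqv H.comm t l h x
  exact ⟨h1, (Pol _ _ 1).list_prod_mem h1⟩

theorem val (hT : T.Normal) {c : ℕ} (hc : E T c = ⊥) (H : Hyp p T φ ψ) {t : P} (ht : t ∈ T)
    (hs : List (ℤ × ℤ)) : ∃ r ∈ E T (hs.length + 1), DL hs (ff p φ ψ t) 0 =
      r * CL (hs.map (aa φ ψ)) t ^ (∑ l ∈ Finset.range p, l ^ hs.length) := by
  obtain ⟨r, hr, he⟩ := DL_prod (EFilt T hT c hc) hs _ (ff_Pol hT hc H ht).1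
  have hr0 : r 0 ∈ E T (hs.length + 1) := ((mem_Pol _).1 hr).1 0
  have h1 : DL hs (ff p φ ψ t) 0 = r 0 * ((List.range p).map
      (fun l => CL ((hs.map (aa φ ψ)).map (· ^ l)) t)).prod := by
    have e1 : DL hs (ff p φ ψ t) 0 = (r * (((List.range p).map (FF φ ψ t)).map (DL hs)).prod) 0 :=
      congrFun he 0
    rw [e1, Pi.mul_apply]
    congr 1
    have e2 : (((List.range p).map (FF φ ψ t)).map (DL hs)).prod 0 =
        Pi.evalMonoidHom (fun _ : ℤ × ℤ => P) 0 (((List.range p).map (FF φ ψ t)).map (DL hs)).prod :=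
      rfl
    rw [e2, map_list_prod, List.map_map, List.map_map]
    congr 1
    apply List.map_congr_left
    intro l _
    show DL hs (FF φ ψ t l) 0 = _
    have e3 := (DL_eqv (fun h => aa φ ψ h ^ l) hs (FF φ ψ t l)
      (fun h x => FF_eqv H.comm t l h x)).2 0
    rw [e3, List.map_map]
    have e4 : FF φ ψ t l 0 = t := by simp [FF, aa]
    rw [e4]
    rfl
  obtain ⟨r', hr', he'⟩ := prod_mod (E T (hs.length + 1)) (E_normal T hT _)
    (CL (hs.map (aa φ ψ)) t) (fun l => l ^ hs.length)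
    (fun l => CL ((hs.map (aa φ ψ)).map (· ^ l)) t) (fun l => by
      have := CL_pow hT l (hs.map (aa φ ψ)) ht
      rw [List.length_map] at this
      exact this) p
  refine ⟨r 0 * r', (E T _).mul_mem hr0 hr', ?_⟩
  rw [h1, he', mul_assoc]

theorem sum_ndvd (hp : p.Prime) : ¬ p ∣ ∑ l ∈ Finset.range p, l ^ (p - 1) := by
  haveI := Fact.mk hp
  intro h
  rw [← ZMod.natCast_eq_zero_iff] at h
  obtain ⟨q, rfl⟩ : ∃ q, p = q + 1 := ⟨p - 1, by have := hp.pos; omega⟩
  have hq : 1 ≤ q := by have := hp.two_le; omega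
  rw [Finset.sum_range_succ'] at h
  push_cast at h
  have h1 : ∀ l ∈ Finset.range q, (((l : ZMod (q + 1)) + 1) ^ (q + 1 - 1)) = 1 := by
    intro l hl
    rw [Finset.mem_range] at hl
    have h2 : ((l : ZMod (q + 1)) + 1) ≠ 0 := by
      intro h3
      have h4 : ((l + 1 : ℕ) : ZMod (q + 1)) = 0 := by push_cast; exact h3
      rw [ZMod.natCast_eq_zero_iff] at h4
      have := Nat.le_of_dvd (by omega) h4
      omega
    exact ZMod.pow_card_sub_one_eq_one h2
  rw [Nat.add_sub_cancel] at h1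
  rw [Finset.sum_congr rfl h1] at h
  simp only [Finset.sum_const, Finset.card_range, nsmul_eq_mul, mul_one] at h
  rw [zero_pow (by omega), add_zero, ZMod.natCast_eq_zero_iff] at h
  have := Nat.le_of_dvd (by omega) h
  omega

/-- first direction and second direction -/
theorem eval2 (H : Hyp p T φ ψ) (hp : p.Prime) {t : P} (ht : t ∈ T) (S : Subgroup P) :
    (DL (List.replicate (p - 1) ((0, 1) : ℤ × ℤ)) (ff p φ ψ t) 0 ∈ S ↔ t ^ p ∈ S) ∧
    (DL (List.replicate (p - 1) ((1, 0) : ℤ × ℤ) ++ List.replicate (p - 1) ((0, 1) : ℤ × ℤ))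
      (ff p φ ψ t) 0 ∈ S ↔ t ^ p ∈ S) := by
  have nd : ∀ j : ℕ, 1 ≤ j → j ≤ p - 1 → ¬ (p : ℤ) ∣ (j : ℤ) := by
    intro j h1 h2 h3
    rw [Int.natCast_dvd_natCast] at h3
    have := Nat.le_of_dvd (by omega) h3
    have := hp.pos
    omega
  have a1 := line_pm ((0, 1) : ℤ × ℤ) (ff p φ ψ t) (p - 1) 0 (by
    intro j h1 h2
    apply ff_one H ht
    rintro ⟨-, h3⟩
    apply nd j h1 h2
    simpa using h3)
  rw [ff_zero] at a1
  have b1 : DL (List.replicate (p - 1) ((0, 1) : ℤ × ℤ)) (ff p φ ψ t) 0 ∈ S ↔ t ^ p ∈ S := by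
    rcases a1 with a1 | a1
    · rw [a1]
    · rw [a1, S.inv_mem_iff]
  refine ⟨b1, ?_⟩
  have a2 := line_pm ((1, 0) : ℤ × ℤ) (DL (List.replicate (p - 1) ((0, 1) : ℤ × ℤ)) (ff p φ ψ t))
    (p - 1) 0 (by
      intro j h1 h2
      apply line_one
      intro k hk
      apply ff_one H ht
      rintro ⟨h3, -⟩
      apply nd j h1 h2
      simpa using h3)
  rw [DL_append]
  rcases a2 with a2 | a2
  · rw [a2]; exact b1
  · rw [a2, S.inv_mem_iff]; exact b1

theorem est1 (hT : T.Normal) {c : ℕ} (hc : E T c = ⊥) (H : Hyp p T φ ψ) (hp : p.Prime) {t : P}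
    (ht : t ∈ T) : t ^ p ∈ E T (2 * p - 2) := by
  rw [← (eval2 H hp ht _).2]
  have h1 := DL_mem (EFilt T hT c hc) (List.replicate (p - 1) ((1, 0) : ℤ × ℤ) ++
    List.replicate (p - 1) ((0, 1) : ℤ × ℤ)) (ff_Pol hT hc H ht).2
  have h2 := ((mem_Pol _).1 h1).1 0
  have h3 : 1 + (List.replicate (p - 1) ((1, 0) : ℤ × ℤ) ++
    List.replicate (p - 1) ((0, 1) : ℤ × ℤ)).length - 1 = 2 * p - 2 := by
    rw [List.length_append, List.length_replicate, List.length_replicate]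
    omega
  have h4 : DL (List.replicate (p - 1) ((1, 0) : ℤ × ℤ) ++
    List.replicate (p - 1) ((0, 1) : ℤ × ℤ)) (ff p φ ψ t) 0 ∈
      E T (1 + (List.replicate (p - 1) ((1, 0) : ℤ × ℤ) ++
    List.replicate (p - 1) ((0, 1) : ℤ × ℤ)).length - 1) := h2
  rw [h3] at h4
  exact h4

theorem est2 (hT : T.Normal) {c : ℕ} (hc : E T c = ⊥) (H : Hyp p T φ ψ) (hp : p.Prime) {t : P}
    (ht : t ∈ T) : CL (List.replicate (p - 1) ψ) t ∈ E T p := by
  have hpp := hp.two_le
  obtain ⟨r, hr, he⟩ := val hT hc H ht (List.replicate (p - 1) ((0, 1) : ℤ × ℤ))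
  have e1 : (List.replicate (p - 1) ((0, 1) : ℤ × ℤ)).map (aa φ ψ) = List.replicate (p - 1) ψ := by
    rw [List.map_replicate]
    congr 1
    simp [aa]
  rw [List.length_replicate] at hr he
  have e2 : p - 1 + 1 = p := by omega
  rw [e2] at hr
  rw [e1] at he
  set w := CL (List.replicate (p - 1) ψ) t with hw
  have hwT : w ∈ T := by
    have := CL_mem hT (List.replicate (p - 1) ψ) (i := 0) ht
    exact E_antitone T hT (Nat.zero_le _) this
  have h1 : w ^ p ∈ E T p := E_antitone T hT (by omega) (est1 hT hc H hp hwT)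
  have h2 : t ^ p ∈ E T p := E_antitone T hT (by omega) (est1 hT hc H hp ht)
  have h3 : w ^ (∑ l ∈ Finset.range p, l ^ (p - 1)) ∈ E T p := by
    have h4 := (eval2 H hp ht (E T p)).1.2 h2
    rw [he] at h4
    exact ((E T p).mul_mem_cancel_left hr).1 h4
  have hcop : Nat.Coprime p (∑ l ∈ Finset.range p, l ^ (p - 1)) :=
    (Nat.Prime.coprime_iff_not_dvd hp).2 (sum_ndvd hp)
  have hb := Nat.gcd_eq_gcd_ab p (∑ l ∈ Finset.range p, l ^ (p - 1))
  rw [hcop] at hb
  have h5 : w = (w ^ p) ^ (Nat.gcdA p (∑ l ∈ Finset.range p, l ^ (p - 1))) *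
      (w ^ (∑ l ∈ Finset.range p, l ^ (p - 1))) ^
        (Nat.gcdB p (∑ l ∈ Finset.range p, l ^ (p - 1))) := by
    conv_lhs => rw [← zpow_one w, ← Nat.cast_one (R := ℤ), hb]
    rw [zpow_add, zpow_mul, zpow_mul, zpow_natCast, zpow_natCast]
  rw [h5]
  exact (E T p).mul_mem ((E T p).zpow_mem h1 _) ((E T p).zpow_mem h3 _)

theorem est3 (hT : T.Normal) {c : ℕ} (hc : E T c = ⊥) (H : Hyp p T φ ψ) (hp : p.Prime) {t : P}
    (ht : t ∈ T) : t ^ p ∈ E T (2 * p - 1) := by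
  have hpp := hp.two_le
  rw [← (eval2 H hp ht _).2]
  obtain ⟨r, hr, he⟩ := val hT hc H ht (List.replicate (p - 1) ((1, 0) : ℤ × ℤ) ++
    List.replicate (p - 1) ((0, 1) : ℤ × ℤ))
  rw [he]
  have e0 : (List.replicate (p - 1) ((1, 0) : ℤ × ℤ) ++
    List.replicate (p - 1) ((0, 1) : ℤ × ℤ)).length + 1 = 2 * p - 1 := by
    rw [List.length_append, List.length_replicate, List.length_replicate]
    omega
  rw [e0] at hr
  refine (E T _).mul_mem hr ((E T _).pow_mem ?_ _)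
  rw [List.map_append, CL_append]
  have e1 : (List.replicate (p - 1) ((0, 1) : ℤ × ℤ)).map (aa φ ψ) = List.replicate (p - 1) ψ := by
    rw [List.map_replicate]
    congr 1
    simp [aa]
  rw [e1]
  have h1 := CL_mem hT ((List.replicate (p - 1) ((1, 0) : ℤ × ℤ)).map (aa φ ψ))
    (est2 hT hc H hp ht)
  rw [List.length_map, List.length_replicate] at h1
  exact E_antitone T hT (by omega) h1

end

end Pool.Agent.H596E
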