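import Pool.Agent.H596E.Est

set_option autoImplicit false
set_option linter.all false

/-!
# Splitting p-groups of automorphisms: homogeneity and the universal group
-/

open scoped commutatorElement

namespace Pool.Agent.H596E

open Pool.Agent.H596Q

section

variable {G H : Type} [Group G] [Group H]

theorem map_lcs_le (f : G →* H) (s : ℕ) : ((⊤ : Subgroup G).lowerCentralSeries s).map f ≤
    (⊤ : Subgroup H).lowerCentralSeries s := by
  induction s with
  | zero => exact le_top
  | succ s ih =>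
    rw [Subgroup.lowerCentralSeries_succ, Subgroup.lowerCentralSeries_succ, Subgroup.map_commutator]
    exact Subgroup.commutator_mono ih le_top

theorem lcs_le_map (f : G →* H) (hf : Function.Surjective f) (s : ℕ) :
    (⊤ : Subgroup H).lowerCentralSeries s ≤ ((⊤ : Subgroup G).lowerCentralSeries s).map f := by
  induction s with
  | zero =>
    intro x _
    obtain ⟨y, rfl⟩ := hf x
    exact ⟨y, Subgroup.mem_top y, rfl⟩
  | succ s ih =>
    rw [Subgroup.lowerCentralSeries_succ, Subgroup.lowerCentralSeries_succ, Subgroup.map_commutator,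
      Subgroup.map_top_of_surjective f hf]
    exact Subgroup.commutator_mono ih (le_refl _)

theorem calc_comm {Q : Type} [Group Q] {R X S Y : Q} (hRX : Commute R X) (hRS : Commute R S)
    (hRY : Commute R Y) (hXS : Commute X S) (h1 : Commute X ⁅X, Y⁆) (h2 : Commute Y ⁅X, Y⁆)
    (h3 : Commute S ⁅X, Y⁆) (K k : ℕ) : ⁅R * X ^ K, S * Y ^ k⁆ = ⁅X, Y⁆ ^ (K * k) := by
  have e1 : ∀ A B : Q, Commute R A → Commute R B → ⁅R * A, B⁆ = ⁅A, B⁆ := by
    intro A B hA hB
    rw [commutatorElement_def, commutatorElement_def]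
    have h : Commute R (A * B * A⁻¹) := (hA.mul_right hB).mul_right hA.inv_right
    calc R * A * B * (R * A)⁻¹ * B⁻¹ = (R * (A * B * A⁻¹)) * R⁻¹ * B⁻¹ := by group
      _ = _ := by rw [h.eq]; group
  have e2 : ∀ A B : Q, Commute A S → ⁅A, S * B⁆ = S * ⁅A, B⁆ * S⁻¹ := by
    intro A B hA
    rw [commutatorElement_def, commutatorElement_def]
    calc A * (S * B) * A⁻¹ * (S * B)⁻¹ = (A * S) * B * A⁻¹ * B⁻¹ * S⁻¹ := by group
      _ = _ := by rw [hA.eq]; group
  rw [e1 _ _ (hRX.pow_right K) (hRS.mul_right (hRY.pow_right k)), e2 _ _ (hXS.pow_left K),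
    pcomm X Y h1 h2, (h3.pow_right (K * k)).eq]
  group

theorem hom_lcs (η : G →* G) (k : ℕ)
    (h0 : ∀ x, ∃ r ∈ (⊤ : Subgroup G).lowerCentralSeries 1, η x = r * x ^ k) :
    ∀ s, ∀ x ∈ (⊤ : Subgroup G).lowerCentralSeries s,
      ∃ r ∈ (⊤ : Subgroup G).lowerCentralSeries (s + 1), η x = r * x ^ (k ^ (s + 1)) := by
  intro s
  induction s with
  | zero =>
    intro x _
    rw [Nat.zero_add, pow_one]
    exact h0 x
  | succ s ih =>
    intro x hx
    set q := QuotientGroup.mk' ((⊤ : Subgroup G).lowerCentralSeries (s + 2)) with hq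
    have cq : ∀ i j, s + 1 ≤ i + j → ∀ x ∈ (⊤ : Subgroup G).lowerCentralSeries i,
        ∀ y ∈ (⊤ : Subgroup G).lowerCentralSeries j, Commute (q x) (q y) := by
      intro i j hij x hx y hy
      rw [← commutatorElement_eq_one_iff_commute, ← map_commutatorElement]
      refine (QuotientGroup.eq_one_iff _).2 ?_
      have := lcs_comm (G := G) j i (Subgroup.commutator_mem_commutator hx hy)
      exact Subgroup.lowerCentralSeries_antitone _ (by omega) this
    have key : ∀ x ∈ (⊤ : Subgroup G).lowerCentralSeries (s + 1),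
        x ∈ (⊤ : Subgroup G).lowerCentralSeries (s + 1) ∧ q (η x) = q x ^ (k ^ (s + 2)) := by
      intro x hx
      have hx' := hx
      rw [Subgroup.lowerCentralSeries_succ, Subgroup.commutator_def] at hx'
      induction hx' using Subgroup.closure_induction with
      | mem x hx1 =>
        refine ⟨hx, ?_⟩
        obtain ⟨a, ha, b, -, rfl⟩ := hx1
        obtain ⟨r, hr, he⟩ := ih a ha
        obtain ⟨r', hr', he'⟩ := h0 b
        rw [map_commutatorElement η, he, he', map_commutatorElement q, map_mul, map_mul, map_pow,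
          map_pow, map_commutatorElement q]
        have hz : ⁅a, b⁆ ∈ (⊤ : Subgroup G).lowerCentralSeries (s + 1) := hx
        rw [calc_comm (cq (s + 1) s (by omega) r hr a ha) (cq (s + 1) 1 (by omega) r hr r' hr')
          (cq (s + 1) 0 (by omega) r hr b (Subgroup.mem_top b)) (cq s 1 (by omega) a ha r' hr')
          ?_ ?_ ?_ (k ^ (s + 1)) k]
        · congr 1
        · rw [← map_commutatorElement]
          exact cq s (s + 1) (by omega) a ha _ hz
        · rw [← map_commutatorElement]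
          exact cq 0 (s + 1) (by omega) b (Subgroup.mem_top b) _ hz
        · rw [← map_commutatorElement]
          exact cq 1 (s + 1) (by omega) r' hr' _ hz
      | one => exact ⟨hx, by rw [map_one η, map_one q, one_pow]⟩
      | mul x y hx1 hy1 ihx ihy =>
        rw [← Subgroup.commutator_def, ← Subgroup.lowerCentralSeries_succ] at hx1 hy1
        obtain ⟨-, h1⟩ := ihx hx1
        obtain ⟨-, h2⟩ := ihy hy1
        refine ⟨hx, ?_⟩
        rw [map_mul, map_mul, map_mul, h1, h2,
          (cq (s + 1) (s + 1) (by omega) x hx1 y hy1).mul_pow]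
      | inv x hx1 ihx =>
        rw [← Subgroup.commutator_def, ← Subgroup.lowerCentralSeries_succ] at hx1
        obtain ⟨-, h1⟩ := ihx hx1
        refine ⟨hx, ?_⟩
        rw [map_inv, map_inv, map_inv, h1, inv_pow]
    have h1 := (key x hx).2
    refine ⟨η x * (x ^ (k ^ (s + 2)))⁻¹, ?_, by group⟩
    rw [← QuotientGroup.eq_one_iff]
    show q (η x * (x ^ (k ^ (s + 2)))⁻¹) = 1
    rw [map_mul, map_inv, map_pow, h1, mul_inv_cancel]

theorem kill (η : G →* G) (k p c M : ℕ) (hp : p.Prime) (hc : 1 ≤ c)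
    (h0 : ∀ x, ∃ r ∈ (⊤ : Subgroup G).lowerCentralSeries 1, η x = r * x ^ k)
    (hbot : (⊤ : Subgroup G).lowerCentralSeries c = ⊥) (t : G) (ht : η t = t ^ k)
    (htp : t ^ p ∈ (⊤ : Subgroup G).lowerCentralSeries (c - 1)) (hM : t ^ (p ^ M) = 1)
    (hk : ((k : ZMod p)) ^ c ≠ (k : ZMod p)) : t ^ p = 1 := by
  obtain ⟨r, hr, he⟩ := hom_lcs η k h0 (c - 1) _ htp
  have e1 : c - 1 + 1 = c := by omega
  rw [e1] at hr he
  rw [hbot, Subgroup.mem_bot] at hr
  rw [hr, one_mul, map_pow, ht, ← pow_mul, mul_comm k p, pow_mul] at he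
  set y := t ^ p with hy
  have hyM : y ^ (p ^ M) = 1 := by
    rw [hy, ← pow_mul, mul_comm, pow_mul, hM, one_pow]
  by_contra hne
  have h1 : orderOf y ∣ p ^ M := orderOf_dvd_of_pow_eq_one hyM
  have h2 : p ∣ orderOf y := by
    obtain ⟨j, -, hj⟩ := (Nat.dvd_prime_pow hp).1 h1
    rcases Nat.eq_zero_or_pos j with rfl | hj0
    · rw [pow_zero, orderOf_eq_one_iff] at hj
      exact absurd hj hne
    · rw [hj]
      exact dvd_pow_self p (by omega)
  have h3 : (k : ℤ) ≡ ((k ^ c : ℕ) : ℤ) [ZMOD (orderOf y : ℤ)] := by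
    have := (pow_eq_pow_iff_modEq (x := y) (n := k) (m := k ^ c)).1 he
    exact (Int.natCast_modEq_iff).2 this
  have h4 : (k : ℤ) ≡ ((k ^ c : ℕ) : ℤ) [ZMOD (p : ℤ)] :=
    h3.of_dvd (by exact_mod_cast h2)
  rw [← ZMod.intCast_eq_intCast_iff] at h4
  push_cast at h4
  exact hk h4.symm

end

/-- a suitable exponent -/
theorem exists_k {p c : ℕ} (hp : p.Prime) (hc : 1 ≤ c) (h : ¬ (p - 1) ∣ (c - 1)) :
    ∃ k : ℕ, ((k : ZMod p)) ^ c ≠ (k : ZMod p) ∧ ¬ p ∣ k := by
  haveI := Fact.mk hp
  obtain ⟨g, hg⟩ := IsCyclic.exists_generator (α := (ZMod p)ˣ)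
  have h1 : orderOf g = p - 1 := by
    rw [orderOf_eq_card_of_forall_mem_zpowers hg, Nat.card_eq_fintype_card, ZMod.card_units]
  refine ⟨(g : ZMod p).val, ?_, ?_⟩
  · rw [ZMod.natCast_zmod_val]
    intro h2
    apply h
    rw [← h1]
    apply orderOf_dvd_of_pow_eq_one
    have h3 : (g : ZMod p) ^ (c - 1) * (g : ZMod p) = 1 * (g : ZMod p) := by
      rw [← pow_succ, one_mul]
      have : c - 1 + 1 = c := by omega
      rw [this, h2]
    have h4 := mul_right_cancel₀ (Units.ne_zero g) h3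
    ext
    rw [Units.val_pow_eq_pow_val, h4, Units.val_one]
  · intro h2
    rw [← ZMod.natCast_eq_zero_iff, ZMod.natCast_zmod_val] at h2
    exact Units.ne_zero g h2

end Pool.Agent.H596E
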