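import Pool.Agent.H596E.Split

set_option autoImplicit false
set_option linter.all false

/-!
# Splitting p-groups of automorphisms: orbits generating a subgroup of small class
-/

open scoped commutatorElement

namespace Pool.Agent.H596E

open Pool.Agent.H596Q

section

variable {K : Type} [Group K] {c : ℕ} (Φ : Filt K c)

theorem cls_list (g : ℕ → Q Φ) (n : ℕ) :
    ∑ l ∈ Finset.range n, cls Φ (g l) = cls Φ ((List.range n).map g).prod := by
  induction n with
  | zero => simp [cls_one]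
  | succ n ih =>
    rw [Finset.sum_range_succ, ih, List.range_succ, List.map_append, List.prod_append, cls_mul]
    simp

/-- the class of the path `k ↦ x^k` -/
def cc (hF : Φ.F 1 = ⊤) (x : K) : V Φ :=
  cls Φ ⟨fun k : ℤ => x ^ k, path_mem_Q Φ (by rw [hF]; exact Subgroup.mem_top x)⟩

theorem cc_sum (hF : Φ.F 1 = ⊤) (y : ℕ → K) (n : ℕ)
    (h : ∀ k : ℤ, ((List.range n).map (fun l => y l ^ k)).prod = 1) :
    ∑ l ∈ Finset.range n, cc Φ hF (y l) = 0 := by
  unfold cc
  rw [cls_list]
  have : ((List.range n).map (fun l => (⟨fun k : ℤ => y l ^ k,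
      path_mem_Q Φ (by rw [hF]; exact Subgroup.mem_top (y l))⟩ : Q Φ))).prod = 1 := by
    apply Subtype.ext
    funext k
    have e1 : ∀ g : Q Φ, (g : ℤ → K) k =
        ((Pi.evalMonoidHom (fun _ : ℤ => K) k).comp (Q Φ).subtype) g := fun g => rfl
    rw [e1, map_list_prod, List.map_map]
    exact h k
  rw [this, cls_one]

theorem cc_pow (hF : Φ.F 1 = ⊤) (x : K) (n : ℕ) : n • cc Φ hF x = cc Φ hF (x ^ n) := by
  have h1 : ∀ (g : Q Φ) (n : ℕ), n • cls Φ g = cls Φ (g ^ n) := by
    intro g n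
    induction n with
    | zero => rw [zero_smul, pow_zero, cls_one]
    | succ n ih => rw [succ_nsmul, ih, pow_succ, cls_mul]
  unfold cc
  rw [h1]
  congr 1
  apply Subtype.ext
  funext k
  show (x ^ k) ^ n = (x ^ n) ^ k
  rw [← zpow_natCast, ← zpow_mul, mul_comm, zpow_mul, zpow_natCast]

end

section

variable {T : Type} [Group T] {p : ℕ} {A : Subgroup (MulAut T)}

theorem orbit_main (hp : p.Prime) (hexp : ∃ M : ℕ, ∀ t : T, t ^ (p ^ M) = 1)
    (hN : ∀ (t : T) (a : A), a ≠ 1 →
      ((List.range p).map (fun l => ((a ^ l : A) : MulAut T) t)).prod = 1)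
    (hcomm : ∀ a b : A, Commute a b) (a1 a2 : A) (h12 : ∀ m : ℕ, a1 * a2 ^ m ≠ 1)
    (h2 : ∀ l : ℕ, 1 ≤ l → l < p → a2 ^ l ≠ 1)
    (O : Subgroup T) (hO : ∀ a : A, ∀ x ∈ O, (a : MulAut T) x ∈ O)
    (hcl : (⊤ : Subgroup O).lowerCentralSeries (p - 1) = ⊥) (t : T) (ht : t ∈ O) : t ^ p = 1 := by
  set Φ := lcsFilt (p - 1) hcl with hΦ
  have hF : Φ.F 1 = ⊤ := rfl
  -- the class of an element
  have line : ∀ a : A, a ≠ 1 → ∀ x : T, ∀ hx : x ∈ O,
      ∑ l ∈ Finset.range p, cc Φ hF ⟨((a ^ l : A) : MulAut T) x, hO (a ^ l) x hx⟩ = 0 := by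
    intro a ha x hx
    apply cc_sum
    intro k
    apply Subtype.ext
    have e1 : (((List.range p).map (fun l =>
        (⟨((a ^ l : A) : MulAut T) x, hO (a ^ l) x hx⟩ : O) ^ k)).prod : T) =
        O.subtype ((List.range p).map (fun l =>
        (⟨((a ^ l : A) : MulAut T) x, hO (a ^ l) x hx⟩ : O) ^ k)).prod := rfl
    rw [e1, map_list_prod, List.map_map]
    have e2 := hN (x ^ k) a ha
    refine Eq.trans ?_ e2
    congr 1
    apply List.map_congr_left
    intro l _
    show (((a ^ l : A) : MulAut T) x) ^ k = ((a ^ l : A) : MulAut T) (x ^ k)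
    rw [map_zpow]
  have key : p • cc Φ hF ⟨t, ht⟩ = 0 := by
    have s1 : ∑ m ∈ Finset.range p, ∑ l ∈ Finset.range p,
        cc Φ hF ⟨(((a1 * a2 ^ m) ^ l : A) : MulAut T) t, hO ((a1 * a2 ^ m) ^ l) t ht⟩ = 0 :=
      Finset.sum_eq_zero fun m _ => line (a1 * a2 ^ m) (h12 m) t ht
    rw [Finset.sum_comm] at s1
    obtain ⟨q, rfl⟩ : ∃ q, p = q + 1 := ⟨p - 1, by have := hp.pos; omega⟩
    rw [Finset.sum_range_succ' (fun l => ∑ m ∈ Finset.range (q + 1),
      cc Φ hF ⟨(((a1 * a2 ^ m) ^ l : A) : MulAut T) t, hO ((a1 * a2 ^ m) ^ l) t ht⟩) q] at s1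
    have s2 : ∑ l ∈ Finset.range q, ∑ m ∈ Finset.range (q + 1),
      cc Φ hF ⟨(((a1 * a2 ^ m) ^ (l + 1) : A) : MulAut T) t,
        hO ((a1 * a2 ^ m) ^ (l + 1)) t ht⟩ = 0 := by
      refine Finset.sum_eq_zero fun l hl => ?_
      rw [Finset.mem_range] at hl
      have s3 := line (a2 ^ (l + 1)) (h2 (l + 1) (by omega) (by omega))
        (((a1 ^ (l + 1) : A) : MulAut T) t) (hO _ t ht)
      rw [← s3]
      refine Finset.sum_congr rfl fun m _ => ?_
      congr 1
      apply Subtype.ext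
      show (((a1 * a2 ^ m) ^ (l + 1) : A) : MulAut T) t =
        (((a2 ^ (l + 1)) ^ m : A) : MulAut T) (((a1 ^ (l + 1) : A) : MulAut T) t)
      rw [← MulAut.mul_apply, ← Subgroup.coe_mul]
      congr 2
      rw [((hcomm a1 (a2 ^ m))).mul_pow, ← pow_mul, ← pow_mul, mul_comm m,
        (((hcomm a2 a1).pow_left ((l + 1) * m)).pow_right (l + 1)).eq]
    rw [s2, zero_add] at s1
    have s4 : ∀ m ∈ Finset.range (q + 1),
        cc Φ hF ⟨(((a1 * a2 ^ m) ^ 0 : A) : MulAut T) t, hO ((a1 * a2 ^ m) ^ 0) t ht⟩ =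
        cc Φ hF ⟨t, ht⟩ := by
      intro m _
      congr 1
    rw [Finset.sum_congr rfl s4, Finset.sum_const, Finset.card_range] at s1
    exact s1
  rw [cc_pow] at key
  unfold cc at key
  rw [cls_eq_zero] at key
  obtain ⟨M, hM⟩ := hexp
  have h3 : (⟨t, ht⟩ : O) ^ p = 1 := by
    refine nontriv Φ (q := p ^ M) ?_ ?_ (by rw [hF]; exact Subgroup.mem_top _) key
    · intro x
      apply Subtype.ext
      rw [Subgroup.coe_pow, hM]
      rfl
    · intro m h1 h2
      apply Nat.Coprime.pow_right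
      rw [Nat.coprime_comm]
      refine (Nat.Prime.coprime_iff_not_dvd hp).2 fun h => ?_
      have := Nat.le_of_dvd (by omega) h
      omega
  have h4 := congrArg Subtype.val h3
  exact h4

/-- for `p ≤ 3` an orbit generates an abelian subgroup -/
theorem orbit_comm (hp : p.Prime) (hp3 : p ≤ 3)
    (hexp : ∀ a : A, a ^ p = 1)
    (hN : ∀ (t : T) (a : A), a ≠ 1 →
      ((List.range p).map (fun l => ((a ^ l : A) : MulAut T) t)).prod = 1) (x : T) (a : A) :
    Commute x ((a : MulAut T) x) := by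
  by_cases ha : a = 1
  · subst ha
    exact Commute.refl x
  have h2 := hp.two_le
  interval_cases p
  · have h3 := hN x a ha
    simp [List.range_succ] at h3
    have h4 : (a : MulAut T) x = x⁻¹ := (inv_eq_of_mul_eq_one_right h3).symm
    rw [h4]
    exact (Commute.refl x).inv_right
  · have key : ∀ y : T, Commute ((a : MulAut T) y) (((a ^ 2 : A) : MulAut T) y) := by
      intro y
      have h3 := hN y a ha
      have ha2 : a ^ 2 ≠ 1 := by
        intro h
        apply ha
        have := hexp a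
        rw [pow_succ, h, one_mul] at this
        exact this
      have h4 := hN y (a ^ 2) ha2
      simp only [List.range_succ, List.range_zero, List.nil_append, List.cons_append, List.map_cons,
        List.map_nil, List.prod_cons, List.prod_nil, pow_zero, pow_one, mul_one] at h3 h4
      have e4 : (a ^ 2) ^ 2 = a := by
        rw [← pow_mul]
        show a ^ (3 + 1) = a
        rw [pow_succ, hexp a, one_mul]
      rw [e4] at h4
      have h5 := h3.trans h4.symm
      have h6 := mul_left_cancel h5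
      exact h6
    have h7 := key (((a⁻¹ : A) : MulAut T) x)
    have e1 : (a : MulAut T) (((a⁻¹ : A) : MulAut T) x) = x := by
      rw [← MulAut.mul_apply, ← Subgroup.coe_mul, mul_inv_cancel]
      rfl
    have e2 : ((a ^ 2 : A) : MulAut T) (((a⁻¹ : A) : MulAut T) x) = (a : MulAut T) x := by
      rw [← MulAut.mul_apply, ← Subgroup.coe_mul]
      congr 2
      group
    rw [e1, e2] at h7
    exact h7

end

end Pool.Agent.H596E
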