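import Pool.Agent.H596E.Sym

set_option autoImplicit false
set_option linter.all false

/-!
# Splitting p-groups of automorphisms: the main estimate
-/

open scoped commutatorElement

namespace Pool.Agent.H596E

open Pool.Agent.H596Q

section

variable {K : Type} [Group K]

theorem pcomm (A Y : K) (h1 : Commute A ⁅A, Y⁆) (h2 : Commute Y ⁅A, Y⁆) (l m : ℕ) :
    ⁅A ^ l, Y ^ m⁆ = ⁅A, Y⁆ ^ (l * m) := by
  set z := ⁅A, Y⁆ with hz
  have hAY : A * Y * A⁻¹ = z * Y := by rw [hz, commutatorElement_def]; group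
  have key : ∀ l : ℕ, A ^ l * Y * (A ^ l)⁻¹ = z ^ l * Y := by
    intro l
    induction l with
    | zero => simp
    | succ l ih =>
      have e1 : A ^ (l + 1) * Y * (A ^ (l + 1))⁻¹ = A * (A ^ l * Y * (A ^ l)⁻¹) * A⁻¹ := by
        rw [pow_succ']; group
      rw [e1, ih]
      have e2 : A * z ^ l = z ^ l * A := (h1.pow_right l).eq
      calc A * (z ^ l * Y) * A⁻¹ = (A * z ^ l) * Y * A⁻¹ := by group
        _ = z ^ l * (A * Y * A⁻¹) := by rw [e2]; group
        _ = z ^ (l + 1) * Y := by rw [hAY, pow_succ]; group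
  have e3 : A ^ l * Y ^ m * (A ^ l)⁻¹ = (A ^ l * Y * (A ^ l)⁻¹) ^ m := by rw [conj_pow]
  have e4 : (z ^ l * Y) ^ m = (z ^ l) ^ m * Y ^ m := (h2.symm.pow_left l).mul_pow m
  rw [commutatorElement_def, e3, key l, e4, ← pow_mul]
  group

theorem step (N : Subgroup K) (hN : N.Normal) (a y r : K) (l m : ℕ) (hr : ∀ g : K, ⁅g, r⁆ ∈ N)
    (hc : ∀ g : K, ⁅g, ⁅a, y⁆⁆ ∈ N) : ∃ r' ∈ N, ⁅a ^ l, r * y ^ m⁆ = r' * ⁅a, y⁆ ^ (l * m) := by
  refine ⟨⁅a ^ l, r * y ^ m⁆ * (⁅a, y⁆ ^ (l * m))⁻¹, ?_, by group⟩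
  rw [← QuotientGroup.eq_one_iff]
  set q := QuotientGroup.mk' N with hq
  have cq : ∀ x w : K, ⁅x, w⁆ ∈ N → Commute (q x) (q w) := by
    intro x w h
    rw [← commutatorElement_eq_one_iff_commute, ← map_commutatorElement]
    exact (QuotientGroup.eq_one_iff _).2 h
  have e0 : ((⁅a ^ l, r * y ^ m⁆ * (⁅a, y⁆ ^ (l * m))⁻¹ : K) : K ⧸ N) =
      ⁅q a ^ l, q r * q y ^ m⁆ * (⁅q a, q y⁆ ^ (l * m))⁻¹ := by
    show q (⁅a ^ l, r * y ^ m⁆ * (⁅a, y⁆ ^ (l * m))⁻¹) = _
    rw [map_mul, map_inv, map_pow, map_commutatorElement, map_commutatorElement, map_mul, map_pow,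
      map_pow]
  rw [e0]
  have c1 : Commute (q a) ⁅q a, q y⁆ := by rw [← map_commutatorElement]; exact cq _ _ (hc a)
  have c2 : Commute (q y) ⁅q a, q y⁆ := by rw [← map_commutatorElement]; exact cq _ _ (hc y)
  have c3 : Commute (q r) ⁅q a, q y⁆ := by rw [← map_commutatorElement]; exact cq _ _ (hc r)
  have c4 : Commute (q a ^ l) (q r) := (cq _ _ (hr a)).pow_left l
  have e1 := pcomm (q a) (q y) c1 c2 l m
  have e2 : ⁅q a ^ l, q r * q y ^ m⁆ = q r * ⁅q a ^ l, q y ^ m⁆ * (q r)⁻¹ := by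
    rw [commutatorElement_def, commutatorElement_def]
    calc q a ^ l * (q r * q y ^ m) * (q a ^ l)⁻¹ * (q r * q y ^ m)⁻¹
        = (q a ^ l * q r) * q y ^ m * (q a ^ l)⁻¹ * (q y ^ m)⁻¹ * (q r)⁻¹ := by group
      _ = _ := by rw [c4.eq]; group
  rw [e2, e1, (c3.pow_right (l * m)).eq]
  group

end

section

variable {P : Type} [Group P] {T : Subgroup P} (hT : T.Normal)

include hT

theorem CL_mem (as : List P) {i : ℕ} {t : P} (ht : t ∈ E T i) : CL as t ∈ E T (i + as.length) := by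
  induction as with
  | nil => exact ht
  | cons a as ih => exact E_step T (hT := hT) ih a

theorem CL_pow (l : ℕ) (as : List P) {t : P} (ht : t ∈ T) :
    ∃ r ∈ E T (as.length + 1), CL (as.map (· ^ l)) t = r * CL as t ^ (l ^ as.length) := by
  induction as with
  | nil => exact ⟨1, (E T _).one_mem, by simp [CL]⟩
  | cons a as ih =>
    obtain ⟨r, hr, he⟩ := ih
    have hy : CL as t ∈ E T (0 + as.length) := CL_mem hT as (i := 0) ht
    rw [Nat.zero_add] at hy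
    have h1 := step (E T (as.length + 2)) (E_normal T hT _) a (CL as t) r l (l ^ as.length)
      (fun g => E_step T (hT := hT) hr g)
      (fun g => E_step T (hT := hT) (E_step T (hT := hT) hy a) g)
    obtain ⟨r', hr', he'⟩ := h1
    refine ⟨r', hr', ?_⟩
    show ⁅a ^ l, CL (as.map (· ^ l)) t⁆ = r' * ⁅a, CL as t⁆ ^ (l ^ (as.length + 1))
    rw [he, he', pow_succ' l]

variable {c : ℕ} (hc : E T c = ⊥)

theorem eqv_Pol {X : Type} [AddCommGroup X] (b : X → P) {i : ℕ} (hi : 1 ≤ i) {G : X → P}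
    (hv : ∀ x, G x ∈ E T (i - 1)) (hG : ∀ h x, G (x + h) = b h * G x * (b h)⁻¹) :
    G ∈ Pol X (EFilt T hT c hc) i := by
  intro m
  induction m generalizing i G with
  | zero => intro x; exact hv x
  | succ m ih =>
    have h3 : ∀ h x, D h G x = ⁅b h, G x⁆ := by
      intro h x
      simp only [D, hG h x, commutatorElement_def]
    refine ⟨hv, fun h => ih (i := i + 1) (by omega) ?_ ?_⟩
    · intro x
      rw [h3]
      have := E_step T (hT := hT) (hv x) (b h)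
      have e : i - 1 + 1 = i + 1 - 1 := by omega
      rw [e] at this
      exact this
    · intro h' x
      have e1 : D h G (x + h') = G (x + h + h') * (G (x + h'))⁻¹ := by
        show G (x + h' + h) * (G (x + h'))⁻¹ = _
        rw [add_right_comm]
      rw [e1, hG h' (x + h), hG h' x]
      show _ = b h' * (G (x + h) * (G x)⁻¹) * (b h')⁻¹
      group

end

/-- the hypothesis: `φ, ψ` commute and every `v φ^i ψ^j` with `v ∈ T` and `i, j` not both divisible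
by `p` has order dividing `p` -/
structure Hyp {P : Type} [Group P] (p : ℕ) (T : Subgroup P) (φ ψ : P) : Prop where
  comm : Commute φ ψ
  ord : ∀ v ∈ T, ∀ i j : ℤ, ¬ ((p : ℤ) ∣ i ∧ (p : ℤ) ∣ j) → (v * (φ ^ i * ψ ^ j)) ^ p = 1

section

variable {P : Type} [Group P]

theorem prod_id (t a : P) (n : ℕ) :
    (t * a) ^ n = ((List.range n).map (fun l => a ^ l * t * (a ^ l)⁻¹)).prod * a ^ n := by
  induction n with
  | zero => simp
  | succ n ih =>
    rw [List.range_succ, List.map_append, List.prod_append, pow_succ, ih]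
    simp only [List.map_cons, List.map_nil, List.prod_cons, List.prod_nil, mul_one]
    rw [pow_succ a n]
    group

/-- the map `x ↦ a(x)` -/
def aa (φ ψ : P) (x : ℤ × ℤ) : P := φ ^ x.1 * ψ ^ x.2

/-- conjugates -/
def FF (φ ψ t : P) (l : ℕ) (x : ℤ × ℤ) : P := aa φ ψ x ^ l * t * (aa φ ψ x ^ l)⁻¹

theorem aa_add {φ ψ : P} (h : Commute φ ψ) (x y : ℤ × ℤ) :
    aa φ ψ (x + y) = aa φ ψ y * aa φ ψ x := by
  unfold aa
  simp only [Prod.fst_add, Prod.snd_add]
  rw [add_comm x.1, add_comm x.2, zpow_add, zpow_add]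
  have := (h.zpow_zpow x.1 y.2).eq
  calc φ ^ y.1 * φ ^ x.1 * (ψ ^ y.2 * ψ ^ x.2) = φ ^ y.1 * (φ ^ x.1 * ψ ^ y.2) * ψ ^ x.2 := by group
    _ = _ := by rw [this]; group

theorem aa_comm {φ ψ : P} (h : Commute φ ψ) (x y : ℤ × ℤ) : Commute (aa φ ψ x) (aa φ ψ y) := by
  show aa φ ψ x * aa φ ψ y = aa φ ψ y * aa φ ψ x
  rw [← aa_add h, ← aa_add h, add_comm]

theorem FF_eqv {φ ψ : P} (hcm : Commute φ ψ) (t : P) (l : ℕ) (h x : ℤ × ℤ) :
    FF φ ψ t l (x + h) = aa φ ψ h ^ l * FF φ ψ t l x * (aa φ ψ h ^ l)⁻¹ := by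
  unfold FF
  rw [aa_add hcm, (aa_comm hcm h x).mul_pow]
  group

/-- the product map -/
def ff (p : ℕ) (φ ψ t : P) : ℤ × ℤ → P := ((List.range p).map (FF φ ψ t)).prod

theorem ff_apply (p : ℕ) (φ ψ t : P) (x : ℤ × ℤ) :
    ff p φ ψ t x = ((List.range p).map (fun l => FF φ ψ t l x)).prod := by
  have h1 : ff p φ ψ t x = Pi.evalMonoidHom (fun _ : ℤ × ℤ => P) x
      ((List.range p).map (FF φ ψ t)).prod := rfl
  rw [h1, map_list_prod, List.map_map]
  rfl

variable {p : ℕ} {T : Subgroup P} {φ ψ : P}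

theorem ff_one (H : Hyp p T φ ψ) {t : P} (ht : t ∈ T) (x : ℤ × ℤ)
    (hx : ¬ ((p : ℤ) ∣ x.1 ∧ (p : ℤ) ∣ x.2)) : ff p φ ψ t x = 1 := by
  have h1 := H.ord t ht x.1 x.2 hx
  have h2 := H.ord 1 T.one_mem x.1 x.2 hx
  rw [one_mul] at h2
  have h3 := prod_id t (aa φ ψ x) p
  rw [ff_apply]
  have h4 : (t * aa φ ψ x) ^ p = 1 := h1
  have h5 : aa φ ψ x ^ p = 1 := h2
  rw [h4, h5, mul_one] at h3
  exact h3.symm

theorem ff_zero (t : P) : ff p φ ψ t 0 = t ^ p := by
  rw [ff_apply]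
  have : (fun l : ℕ => FF φ ψ t l 0) = fun _ => t := by
    funext l
    simp [FF, aa]
  rw [this]
  simp

end

end Pool.Agent.H596E
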