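import Pool.Agent.H596Q.Lcs

set_option autoImplicit false
set_option linter.all false

/-!
# Splitting p-groups of automorphisms: symbol calculus
-/

open scoped commutatorElement

namespace Pool.Agent.H596E

open Pool.Agent.H596Q

section

variable {P : Type} [Group P]

/-- `[T, P, ..., P]` with `s` factors `P` -/
def E (T : Subgroup P) : ℕ → Subgroup P
  | 0 => T
  | s + 1 => ⁅E T s, (⊤ : Subgroup P)⁆

variable (T : Subgroup P)

theorem E_normal (hT : T.Normal) (s : ℕ) : (E T s).Normal := by
  induction s with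
  | zero => exact hT
  | succ s ih =>
    haveI := ih
    show (⁅E T s, (⊤ : Subgroup P)⁆).Normal
    infer_instance

theorem E_anti (hT : T.Normal) (s : ℕ) : E T (s + 1) ≤ E T s := by
  haveI := E_normal T hT s
  exact Subgroup.commutator_le_left _ _

theorem E_antitone (hT : T.Normal) {i j : ℕ} (h : i ≤ j) : E T j ≤ E T i :=
  antitone_nat_of_succ_le (E_anti T hT) h

theorem E_le_lcs (s : ℕ) : E T s ≤ (⊤ : Subgroup P).lowerCentralSeries s := by
  induction s with
  | zero => exact le_top
  | succ s ih =>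
    rw [Subgroup.lowerCentralSeries_succ]
    exact Subgroup.commutator_mono ih (le_refl _)

theorem E_comm (hT : T.Normal) (j : ℕ) : ∀ i, ⁅E T i, (⊤ : Subgroup P).lowerCentralSeries j⁆ ≤
    E T (i + j + 1) := by
  induction j with
  | zero =>
    intro i
    exact le_refl _
  | succ j ih =>
    intro i
    haveI := E_normal T hT (i + (j + 1) + 1)
    rw [Subgroup.commutator_comm, Subgroup.lowerCentralSeries_succ]
    apply three
    · rw [Subgroup.commutator_comm ⊤]
      refine (ih (i + 1)).trans (le_of_eq ?_)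
      congr 1
      omega
    · exact Subgroup.commutator_mono (ih i) (le_refl (⊤ : Subgroup P))

theorem E_step {hT : T.Normal} {i : ℕ} {x : P} (hx : x ∈ E T i) (b : P) : ⁅b, x⁆ ∈ E T (i + 1) := by
  have h1 : ⁅x, b⁆ ∈ E T (i + 1) := Subgroup.commutator_mem_commutator hx (Subgroup.mem_top b)
  rw [← commutatorElement_inv]
  exact (E T (i + 1)).inv_mem h1

/-- the filtration -/
def EFilt (hT : T.Normal) (c : ℕ) (h : E T c = ⊥) : Filt P c where
  F i := E T (i - 1)
  anti i := E_antitone T hT (by omega)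
  comm i j x hx y hy := by
    rcases Nat.eq_zero_or_pos j with rfl | hj
    · have h0 : y ∈ (⊤ : Subgroup P) := Subgroup.mem_top y
      have h1 : ⁅x, y⁆ ∈ E T (i - 1 + 1) := Subgroup.commutator_mem_commutator hx h0
      exact E_antitone T hT (by omega) h1
    · have h1 : ⁅x, y⁆ ∈ E T (i - 1 + (j - 1) + 1) :=
        E_comm T hT (j - 1) (i - 1) (Subgroup.commutator_mem_commutator hx (E_le_lcs T _ hy))
      exact E_antitone T hT (by omega) h1
  bot x hx := by
    have : E T (c + 1 - 1) = ⊥ := h
    rw [this] at hx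
    exact hx
  zero := le_refl _

end

section

variable {X K : Type} [AddCommGroup X] [Group K]

/-- iterated difference operator -/
def DL : List X → (X → K) → (X → K)
  | [], g => g
  | h :: hs, g => D h (DL hs g)

/-- iterated commutator -/
def CL : List K → K → K
  | [], g => g
  | a :: l, g => ⁅a, CL l g⁆

theorem DL_append (l m : List X) (g : X → K) : DL (l ++ m) g = DL l (DL m g) := by
  induction l with
  | nil => rfl
  | cons h l ih => simp only [List.cons_append, DL, ih]

theorem CL_append (l m : List K) (g : K) : CL (l ++ m) g = CL l (CL m g) := by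
  induction l with
  | nil => rfl
  | cons h l ih => simp only [List.cons_append, CL, ih]

/-- difference operators of an equivariant map -/
theorem DL_eqv (b : X → K) (hs : List X) (G : X → K)
    (hG : ∀ h x, G (x + h) = b h * G x * (b h)⁻¹) :
    (∀ h x, DL hs G (x + h) = b h * DL hs G x * (b h)⁻¹) ∧
      ∀ x, DL hs G x = CL (hs.map b) (G x) := by
  induction hs with
  | nil => exact ⟨hG, fun x => rfl⟩
  | cons k hs ih =>
    obtain ⟨h1, h2⟩ := ih
    have h3 : ∀ x, D k (DL hs G) x = ⁅b k, DL hs G x⁆ := by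
      intro x
      simp only [D, h1 k x, commutatorElement_def]
    refine ⟨fun h x => ?_, fun x => ?_⟩
    · show D k (DL hs G) (x + h) = b h * D k (DL hs G) x * (b h)⁻¹
      have e1 : D k (DL hs G) (x + h) = DL hs G (x + k + h) * (DL hs G (x + h))⁻¹ := by
        show DL hs G (x + h + k) * (DL hs G (x + h))⁻¹ = _
        rw [add_right_comm]
      rw [e1, h1 h (x + k), h1 h x]
      show _ = b h * (DL hs G (x + k) * (DL hs G x)⁻¹) * (b h)⁻¹
      group
    · show D k (DL hs G) x = ⁅b k, CL (hs.map b) (G x)⁆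
      rw [h3, h2]

variable {c : ℕ} (Φ : Filt K c)

theorem DL_mem (hs : List X) : ∀ {i : ℕ} {g : X → K}, g ∈ Pol X Φ i →
    DL hs g ∈ Pol X Φ (i + hs.length) := by
  induction hs with
  | nil => intro i g hg; exact hg
  | cons h hs ih =>
    intro i g hg
    exact ((mem_Pol Φ).1 (ih hg)).2 h

theorem Pol_conj {i : ℕ} {u w : X → K} (hu : u ∈ Pol X Φ 0) (hw : w ∈ Pol X Φ i) :
    u * w * u⁻¹ ∈ Pol X Φ i := by
  have h1 : u * w * u⁻¹ = ⁅u, w⁆ * w := by rw [commutatorElement_def]; group
  rw [h1]
  have h2 := Pol_comm Φ hu hw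
  rw [Nat.zero_add] at h2
  exact (Pol X Φ i).mul_mem h2 hw

theorem DL_mul (hs : List X) {g1 g2 : X → K} (h1 : g1 ∈ Pol X Φ 1) (h2 : g2 ∈ Pol X Φ 1) :
    ∃ r ∈ Pol X Φ (hs.length + 2), DL hs (g1 * g2) = r * (DL hs g1 * DL hs g2) := by
  induction hs with
  | nil => exact ⟨1, (Pol X Φ _).one_mem, by simp [DL]⟩
  | cons h hs ih =>
    obtain ⟨r, hr, he⟩ := ih
    have hA : DL hs g1 ∈ Pol X Φ (1 + hs.length) := DL_mem Φ hs h1
    have hB : DL hs g2 ∈ Pol X Φ (1 + hs.length) := DL_mem Φ hs h2
    set A := DL hs g1 with hAd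
    set B := DL hs g2 with hBd
    have hDA : D h A ∈ Pol X Φ (1 + hs.length + 1) := ((mem_Pol Φ).1 hA).2 h
    have hDB : D h B ∈ Pol X Φ (1 + hs.length + 1) := ((mem_Pol Φ).1 hB).2 h
    have hDr : D h r ∈ Pol X Φ (hs.length + 2 + 1) := ((mem_Pol Φ).1 hr).2 h
    have hAB : D h (A * B) ∈ Pol X Φ (1 + hs.length + 1) :=
      ((mem_Pol Φ).1 ((Pol X Φ _).mul_mem hA hB)).2 h
    have key : D h (r * (A * B)) = (D h r * ⁅r, D h (A * B)⁆ * (D h A * ⁅A, D h B⁆ * (D h A)⁻¹)) *
        (D h A * D h B) := by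
      rw [D_mul h r (A * B), D_mul h A B]
      group
    refine ⟨D h r * ⁅r, D h (A * B)⁆ * (D h A * ⁅A, D h B⁆ * (D h A)⁻¹), ?_, ?_⟩
    · have l1 : D h r ∈ Pol X Φ ((h :: hs).length + 2) := Pol_anti Φ (by simp) hDr
      have l2 : ⁅r, D h (A * B)⁆ ∈ Pol X Φ ((h :: hs).length + 2) :=
        Pol_anti Φ (by simp only [List.length_cons]; omega) (Pol_comm Φ hr hAB)
      have l3 : ⁅A, D h B⁆ ∈ Pol X Φ ((h :: hs).length + 2) :=
        Pol_anti Φ (by simp only [List.length_cons]; omega) (Pol_comm Φ hA hDB)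
      exact (Pol X Φ _).mul_mem ((Pol X Φ _).mul_mem l1 l2)
        (Pol_conj Φ (Pol_anti Φ (Nat.zero_le _) hDA) l3)
    · show D h (DL hs (g1 * g2)) = _
      rw [he, key]
      rfl

theorem DL_prod (hs : List X) (L : List (X → K)) (hL : ∀ g ∈ L, g ∈ Pol X Φ 1) :
    ∃ r ∈ Pol X Φ (hs.length + 2), DL hs L.prod = r * (L.map (DL hs)).prod := by
  induction L with
  | nil =>
    refine ⟨1, (Pol X Φ _).one_mem, ?_⟩
    simp only [List.prod_nil, List.map_nil, one_mul]
    clear hL
    induction hs with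
    | nil => rfl
    | cons h hs ih =>
      show D h (DL hs 1) = 1
      rw [ih, D_one]
  | cons g L ih =>
    obtain ⟨r2, hr2, he2⟩ := ih (fun g' hg' => hL g' (List.mem_cons_of_mem _ hg'))
    have hg : g ∈ Pol X Φ 1 := hL g List.mem_cons_self
    have hP : L.prod ∈ Pol X Φ 1 :=
      (Pol X Φ 1).list_prod_mem (fun g' hg' => hL g' (List.mem_cons_of_mem _ hg'))
    obtain ⟨r1, hr1, he1⟩ := DL_mul Φ hs hg hP
    refine ⟨r1 * (DL hs g * r2 * (DL hs g)⁻¹), ?_, ?_⟩
    · exact (Pol X Φ _).mul_mem hr1 (Pol_conj Φ (Pol_anti Φ (Nat.zero_le _) (DL_mem Φ hs hg)) hr2)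
    · rw [List.prod_cons, he1, he2, List.map_cons, List.prod_cons]
      group

theorem line_one (e : X) (g : X → K) : ∀ (m : ℕ) (x : X), (∀ j : ℕ, j ≤ m → g (x + j • e) = 1) →
    DL (List.replicate m e) g x = 1 := by
  intro m
  induction m with
  | zero =>
    intro x h
    have := h 0 (le_refl 0)
    simpa [DL] using this
  | succ m ih =>
    intro x h
    show D e (DL (List.replicate m e) g) x = 1
    have h1 : DL (List.replicate m e) g x = 1 := ih x (fun j hj => h j (by omega))
    have h2 : DL (List.replicate m e) g (x + e) = 1 := by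
      apply ih
      intro j hj
      have := h (j + 1) (by omega)
      rw [add_smul, one_smul] at this
      rw [add_assoc, add_comm e]
      exact this
    simp [D, h1, h2]

theorem line_pm (e : X) (g : X → K) : ∀ (m : ℕ) (x : X),
    (∀ j : ℕ, 1 ≤ j → j ≤ m → g (x + j • e) = 1) →
    DL (List.replicate m e) g x = g x ∨ DL (List.replicate m e) g x = (g x)⁻¹ := by
  intro m
  induction m with
  | zero => intro x h; exact Or.inl rfl
  | succ m ih =>
    intro x h
    have h1 := ih x (fun j hj hj' => h j hj (by omega))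
    have h2 : DL (List.replicate m e) g (x + e) = 1 := by
      apply line_one
      intro j hj
      have := h (j + 1) (by omega) (by omega)
      rw [add_smul, one_smul] at this
      rw [add_assoc, add_comm e]
      exact this
    have h3 : DL (List.replicate (m + 1) e) g x = (DL (List.replicate m e) g x)⁻¹ := by
      show D e (DL (List.replicate m e) g) x = _
      simp [D, h2]
    rw [h3]
    rcases h1 with h1 | h1
    · right; rw [h1]
    · left; rw [h1, inv_inv]

end

end Pool.Agent.H596E
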