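import Pool.Agent.H596E.Hom

set_option autoImplicit false
set_option linter.all false

/-!
# Splitting p-groups of automorphisms: the universal group and the induction
-/

open scoped commutatorElement

namespace Pool.Agent.H596E

open Pool.Agent.H596Q

/-- the free group -/
abbrev F3 : Type := FreeGroup (Fin 3)

/-- generators -/
def x3 (i : Fin 3) : F3 := FreeGroup.of i

/-- the normal closure of the first generator -/
def TF : Subgroup F3 := Subgroup.normalClosure {x3 0}

instance TF_normal : TF.Normal := Subgroup.normalClosure_normal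

/-- relators -/
def RR (p c M : ℕ) : Set F3 :=
  {w | ∃ v ∈ TF, ∃ i j : ℤ, ¬ ((p : ℤ) ∣ i ∧ (p : ℤ) ∣ j) ∧ w = (v * (x3 1 ^ i * x3 2 ^ j)) ^ p} ∪
    {⁅x3 1, x3 2⁆} ∪ ((⊤ : Subgroup F3).lowerCentralSeries c : Set F3) ∪
    {w | ∃ v ∈ TF, w = v ^ (p ^ M)}

/-- relation subgroup -/
def NN (p c M : ℕ) : Subgroup F3 := Subgroup.normalClosure (RR p c M)

instance NN_normal (p c M : ℕ) : (NN p c M).Normal := Subgroup.normalClosure_normal

theorem RR_sub (p c M : ℕ) : RR p c M ⊆ NN p c M := Subgroup.subset_normalClosure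

variable (p c M : ℕ)

/-- the projection -/
def qq : F3 →* F3 ⧸ NN p c M := QuotientGroup.mk' (NN p c M)

theorem qq_surj : Function.Surjective (qq p c M) := QuotientGroup.mk'_surjective _

theorem qq_one {w : F3} : qq p c M w = 1 ↔ w ∈ NN p c M := QuotientGroup.eq_one_iff w

theorem comm0 : Commute (qq p c M (x3 1)) (qq p c M (x3 2)) := by
  rw [← commutatorElement_eq_one_iff_commute, ← map_commutatorElement, qq_one]
  apply RR_sub
  left; left; right
  rfl

/-- image of `TF` -/
def T0 : Subgroup (F3 ⧸ NN p c M) := TF.map (qq p c M)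

theorem T0_normal : (T0 p c M).Normal := Subgroup.Normal.map TF_normal _ (qq_surj p c M)

theorem hyp0 : Hyp p (T0 p c M) (qq p c M (x3 1)) (qq p c M (x3 2)) where
  comm := comm0 p c M
  ord := by
    rintro v ⟨v', hv', rfl⟩ i j hij
    rw [← map_zpow, ← map_zpow, ← map_mul, ← map_mul, ← map_pow, qq_one]
    apply RR_sub
    left; left; left
    exact ⟨v', hv', i, j, hij, rfl⟩

theorem lcs0 : (⊤ : Subgroup (F3 ⧸ NN p c M)).lowerCentralSeries c = ⊥ := by
  rw [eq_bot_iff]
  refine (lcs_le_map (qq p c M) (qq_surj p c M) c).trans ?_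
  rintro _ ⟨w, hw, rfl⟩
  rw [Subgroup.mem_bot, qq_one]
  apply RR_sub
  left; right
  exact hw

theorem exp0 : ∀ v ∈ T0 p c M, v ^ (p ^ M) = 1 := by
  rintro v ⟨v', hv', rfl⟩
  rw [← map_pow, qq_one]
  apply RR_sub
  right
  exact ⟨v', hv', rfl⟩

/-- power endomorphism of the free group -/
def ηF (k : ℕ) : F3 →* F3 := FreeGroup.lift (fun i => x3 i ^ k)

theorem ηF_x (k : ℕ) (i : Fin 3) : ηF k (x3 i) = x3 i ^ k := by
  simp [ηF, x3]

theorem ηF_TF (k : ℕ) {v : F3} (hv : v ∈ TF) : ηF k v ∈ TF := by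
  have h : TF ≤ TF.comap (ηF k) := by
    apply Subgroup.normalClosure_le_normal
    rintro w hw
    rw [Set.mem_singleton_iff] at hw
    subst hw
    show ηF k (x3 0) ∈ TF
    rw [ηF_x]
    exact TF.pow_mem (Subgroup.subset_normalClosure rfl) k
  exact h hv

theorem ηF_NN {k : ℕ} (hp : p.Prime) (hk : ¬ p ∣ k) : NN p c M ≤ (NN p c M).comap (ηF k) := by
  apply Subgroup.normalClosure_le_normal
  intro w hw
  show ηF k w ∈ NN p c M
  rcases hw with ((⟨v, hv, i, j, hij, rfl⟩ | hw) | hw) | ⟨v, hv, rfl⟩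
  · apply RR_sub
    left; left; left
    refine ⟨ηF k v, ηF_TF k hv, (k : ℤ) * i, (k : ℤ) * j, ?_, ?_⟩
    · rintro ⟨h1, h2⟩
      have hp' : Prime (p : ℤ) := Nat.prime_iff_prime_int.1 hp
      have hk' : ¬ (p : ℤ) ∣ (k : ℤ) := by
        rw [Int.natCast_dvd_natCast]; exact hk
      apply hij
      exact ⟨(hp'.dvd_or_dvd h1).resolve_left hk', (hp'.dvd_or_dvd h2).resolve_left hk'⟩
    · rw [map_pow, map_mul, map_mul, map_zpow, map_zpow, ηF_x, ηF_x, zpow_mul, zpow_mul,
        zpow_natCast, zpow_natCast]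
  · rw [Set.mem_singleton_iff] at hw
    rw [hw, map_commutatorElement, ηF_x, ηF_x, ← qq_one, map_commutatorElement, map_pow, map_pow,
      commutatorElement_eq_one_iff_commute]
    exact (comm0 p c M).pow_pow k k
  · apply RR_sub
    left; right
    exact map_lcs_le (ηF k) c ⟨w, hw, rfl⟩
  · apply RR_sub
    right
    exact ⟨ηF k v, ηF_TF k hv, by rw [map_pow]⟩

/-- power endomorphism of the universal group -/
noncomputable def η0 {k : ℕ} (hp : p.Prime) (hk : ¬ p ∣ k) : F3 ⧸ NN p c M →* F3 ⧸ NN p c M :=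
  QuotientGroup.map (NN p c M) (NN p c M) (ηF k) (ηF_NN p c M hp hk)

theorem η0_qq {k : ℕ} (hp : p.Prime) (hk : ¬ p ∣ k) (w : F3) :
    η0 p c M hp hk (qq p c M w) = qq p c M (ηF k w) := rfl

theorem η0_mod {k : ℕ} (hp : p.Prime) (hk : ¬ p ∣ k) (x : F3 ⧸ NN p c M) :
    ∃ r ∈ (⊤ : Subgroup (F3 ⧸ NN p c M)).lowerCentralSeries 1, η0 p c M hp hk x = r * x ^ k := by
  have h1 : (Abelianization.of.comp ((η0 p c M hp hk).comp (qq p c M))) =
      (powMonoidHom k).comp (Abelianization.of.comp (qq p c M)) := by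
    apply FreeGroup.ext_hom
    intro i
    show Abelianization.of (η0 p c M hp hk (qq p c M (x3 i))) =
      (Abelianization.of (qq p c M (x3 i))) ^ k
    rw [η0_qq, ηF_x, map_pow, map_pow]
  obtain ⟨w, rfl⟩ := qq_surj p c M x
  refine ⟨η0 p c M hp hk (qq p c M w) * (qq p c M w ^ k)⁻¹, ?_, by group⟩
  have h2 := DFunLike.congr_fun h1 w
  have h3 : Abelianization.of (η0 p c M hp hk (qq p c M w)) =
    (Abelianization.of (qq p c M w)) ^ k := h2
  have h4 : η0 p c M hp hk (qq p c M w) * (qq p c M w ^ k)⁻¹ ∈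
      (Abelianization.of : F3 ⧸ NN p c M →* _).ker := by
    rw [MonoidHom.mem_ker, map_mul, map_inv, map_pow, h3, mul_inv_cancel]
  rw [Abelianization.ker_of] at h4
  rw [Subgroup.lowerCentralSeries_succ]
  exact h4

/-- The induction. -/
theorem claim (hp : p.Prime) : ∀ c : ℕ, c ≤ 3 * p - 3 → ∀ (P : Type) [Group P] (T : Subgroup P)
    (φ ψ : P), T.Normal → Hyp p T φ ψ → (⊤ : Subgroup P).lowerCentralSeries c = ⊥ →
    (∃ M : ℕ, ∀ t ∈ T, t ^ (p ^ M) = 1) → ∀ t ∈ T, t ^ p = 1 := by
  have hpp := hp.two_le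
  have base : ∀ c : ℕ, c ≤ 2 * p - 1 → ∀ (P : Type) [Group P] (T : Subgroup P)
    (φ ψ : P), T.Normal → Hyp p T φ ψ → (⊤ : Subgroup P).lowerCentralSeries c = ⊥ →
    ∀ t ∈ T, t ^ p = 1 := by
    intro c hc P _ T φ ψ hT H hbot t ht
    have h1 : E T (2 * p - 1) = ⊥ := by
      rw [eq_bot_iff]
      refine (E_le_lcs T _).trans ?_
      rw [← hbot]
      exact Subgroup.lowerCentralSeries_antitone _ hc
    have h2 := est3 hT h1 H hp ht
    rw [h1, Subgroup.mem_bot] at h2
    exact h2
  intro c
  induction c with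
  | zero => intro _ P _ T φ ψ hT H hbot _; exact base 0 (by omega) P T φ ψ hT H hbot
  | succ c ih =>
    intro hc P _ T φ ψ hT H hbot hM t ht
    by_cases hc' : c + 1 ≤ 2 * p - 1
    · exact base (c + 1) hc' P T φ ψ hT H hbot t ht
    · obtain ⟨M, hM⟩ := hM
      have hnd : ¬ (p - 1) ∣ (c + 1 - 1) := by
        rw [Nat.add_sub_cancel]
        rintro ⟨d, hd⟩
        have h1 : 2 * (p - 1) < (p - 1) * d := by omega
        have h2 : (p - 1) * d < 3 * (p - 1) := by omega
        have h3 : 2 < d := by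
          by_contra h
          have : d ≤ 2 := by omega
          have := Nat.mul_le_mul_left (p - 1) this
          omega
        have h4 : d < 3 := by
          by_contra h
          have : 3 ≤ d := by omega
          have := Nat.mul_le_mul_left (p - 1) this
          omega
        omega
      obtain ⟨k, hk1, hk2⟩ := exists_k hp (c := c + 1) (by omega) hnd
      -- the universal group
      have ht0 : qq p (c + 1) M (x3 0) ∈ T0 p (c + 1) M :=
        ⟨x3 0, Subgroup.subset_normalClosure rfl, rfl⟩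
      have hstep : (qq p (c + 1) M (x3 0)) ^ p ∈
          (⊤ : Subgroup (F3 ⧸ NN p (c + 1) M)).lowerCentralSeries c := by
        set L := (⊤ : Subgroup (F3 ⧸ NN p (c + 1) M)).lowerCentralSeries c with hL
        set q := QuotientGroup.mk' L with hq
        have hs : Function.Surjective q := QuotientGroup.mk'_surjective _
        have h1 : (⊤ : Subgroup ((F3 ⧸ NN p (c + 1) M) ⧸ L)).lowerCentralSeries c = ⊥ := by
          rw [eq_bot_iff]
          refine (lcs_le_map q hs c).trans ?_
          rintro _ ⟨w, hw, rfl⟩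
          rw [Subgroup.mem_bot]
          exact (QuotientGroup.eq_one_iff w).2 hw
        have h2 : Hyp p ((T0 p (c + 1) M).map q) (q (qq p (c + 1) M (x3 1)))
            (q (qq p (c + 1) M (x3 2))) := by
          refine ⟨(comm0 p (c + 1) M).map q, ?_⟩
          rintro v ⟨v', hv', rfl⟩ i j hij
          have h5 := congrArg q ((hyp0 p (c + 1) M).ord v' hv' i j hij)
          rw [map_pow q, map_mul q, map_mul q, map_zpow q, map_zpow q, map_one q] at h5
          exact h5
        have h3 := ih (by omega) ((F3 ⧸ NN p (c + 1) M) ⧸ L) ((T0 p (c + 1) M).map q) _ _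
          (Subgroup.Normal.map (T0_normal p (c + 1) M) _ hs) h2 h1
          ⟨M, by
            rintro v ⟨v', hv', rfl⟩
            rw [← map_pow, exp0 p (c + 1) M v' hv', map_one]⟩
          (q (qq p (c + 1) M (x3 0))) ⟨_, ht0, rfl⟩
        rw [← map_pow] at h3
        exact (QuotientGroup.eq_one_iff _).1 h3
      have hkill := kill (η0 p (c + 1) M hp hk2) k p (c + 1) M hp (by omega)
        (η0_mod p (c + 1) M hp hk2) (lcs0 p (c + 1) M) (qq p (c + 1) M (x3 0))
        (by rw [η0_qq, ηF_x, map_pow]) hstep (exp0 p (c + 1) M _ ht0) hk1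
      rw [← map_pow, qq_one] at hkill
      -- transfer
      set f : F3 →* P := FreeGroup.lift ![t, φ, ψ] with hf
      have f0 : f (x3 0) = t := by simp [hf, x3]
      have f1 : f (x3 1) = φ := by simp [hf, x3]
      have f2 : f (x3 2) = ψ := by simp [hf, x3]
      have hfT : ∀ v ∈ TF, f v ∈ T := by
        have h : TF ≤ T.comap f := by
          haveI := hT
          apply Subgroup.normalClosure_le_normal
          rintro w hw
          rw [Set.mem_singleton_iff] at hw
          subst hw
          show f (x3 0) ∈ T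
          rw [f0]
          exact ht
        exact fun v hv => h hv
      have hker : NN p (c + 1) M ≤ f.ker := by
        apply Subgroup.normalClosure_le_normal
        intro w hw
        show w ∈ f.ker
        rw [MonoidHom.mem_ker]
        rcases hw with ((⟨v, hv, i, j, hij, rfl⟩ | hw) | hw) | ⟨v, hv, rfl⟩
        · rw [map_pow, map_mul, map_mul, map_zpow, map_zpow, f1, f2]
          exact H.ord _ (hfT v hv) i j hij
        · rw [Set.mem_singleton_iff] at hw
          rw [hw, map_commutatorElement, f1, f2, commutatorElement_eq_one_iff_commute]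
          exact H.comm
        · have := map_lcs_le f (c + 1) ⟨w, hw, rfl⟩
          rw [hbot, Subgroup.mem_bot] at this
          exact this
        · rw [map_pow]
          exact hM _ (hfT v hv)
      have hfin := hker hkill
      rw [MonoidHom.mem_ker, map_pow, f0] at hfin
      exact hfin

end Pool.Agent.H596E
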